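import Mathlib
import Pool.Agent.W770.KP.Stm

/-! KP-ABS: the abstract summation argument. -/

set_option autoImplicit false

open scoped Classical

namespace Pool.Agent.W168.KP

open Pool.Agent.W770.KP Finset

/-- step 3: the mass of one level -/
theorem level_mass (n k : ℕ) {ι X : Type} (V : ι → Finset X) (T : ι → ℝ) (st : ι → ℤ)
    (S : Finset X) (hS : S.Nonempty) (l : ℤ) (Gt : ℝ) (hGt : 0 < Gt)
    (Q : Finset ι) (J : Finset ℤ)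
    (hst : ∀ i ∈ Q, (2:ℝ) ^ (st i) ≤ T i)
    (hQ : ∀ i ∈ Q, ((4:ℝ) ^ (l * ((n:ℤ) + 1)) * (S.card : ℝ)) / (2 * Gt) * T i
      ≤ (4:ℝ) ^ ((l+1) * ((k:ℤ) + 1)) * ((V i ∩ S).card : ℝ))
    (hQ2 : ∑ i ∈ Q, (V i ∩ S).card ≤ 2 * S.card)
    (hZ : ∑ i ∈ J, (2:ℝ) ^ i * ((Q.filter (fun w => i ≤ st w)).card : ℝ)
      ≤ 2 * ∑ w ∈ Q, (2:ℝ) ^ (st w)) :
    (4:ℝ) ^ (l * ((n:ℤ) - (k:ℤ))) *
      ∑ s ∈ J, (2:ℝ) ^ s * ((Q.filter (fun w => s ≤ st w)).card : ℝ)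
      ≤ 8 * 4 ^ (k+1) * Gt := by
  have hSc : (0:ℝ) < (S.card : ℝ) := by exact_mod_cast hS.card_pos
  have h1 : ∑ w ∈ Q, (2:ℝ) ^ (st w) ≤ ∑ w ∈ Q, T w := Finset.sum_le_sum hst
  have h2 : ((4:ℝ) ^ (l * ((n:ℤ) + 1)) * (S.card : ℝ)) / (2 * Gt) * ∑ w ∈ Q, T w
      ≤ (4:ℝ) ^ ((l+1) * ((k:ℤ) + 1)) * (2 * (S.card : ℝ)) := by
    rw [Finset.mul_sum]
    calc _ ≤ ∑ i ∈ Q, (4:ℝ) ^ ((l+1) * ((k:ℤ) + 1)) * ((V i ∩ S).card : ℝ) :=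
          Finset.sum_le_sum hQ
      _ = (4:ℝ) ^ ((l+1) * ((k:ℤ) + 1)) * ((∑ i ∈ Q, (V i ∩ S).card : ℕ) : ℝ) := by
          rw [← Finset.mul_sum, Nat.cast_sum]
      _ ≤ _ := by
          apply mul_le_mul_of_nonneg_left _ (by positivity)
          exact_mod_cast hQ2
  set R : ℝ := ∑ w ∈ Q, T w with hR
  have h3 : (4:ℝ) ^ (l * ((n:ℤ) + 1)) * R ≤ 4 * Gt * (4:ℝ) ^ ((l+1) * ((k:ℤ) + 1)) := by
    have h4 : ((4:ℝ) ^ (l * ((n:ℤ) + 1)) * (S.card : ℝ)) / (2 * Gt) * R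
        = ((4:ℝ) ^ (l * ((n:ℤ) + 1)) * R) * ((S.card : ℝ) / (2 * Gt)) := by ring
    have h5 : (4:ℝ) ^ ((l+1) * ((k:ℤ) + 1)) * (2 * (S.card : ℝ))
        = (4 * Gt * (4:ℝ) ^ ((l+1) * ((k:ℤ) + 1))) * ((S.card : ℝ) / (2 * Gt)) := by
      field_simp
      ring
    rw [h4, h5] at h2
    exact le_of_mul_le_mul_right h2 (by positivity)
  have h6 : (4:ℝ) ^ (l * ((n:ℤ) - (k:ℤ)))
      = (4:ℝ) ^ (-((l+1) * ((k:ℤ) + 1)) + ((k:ℤ) + 1)) * (4:ℝ) ^ (l * ((n:ℤ) + 1)) := by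
    rw [← zpow_add₀ (by norm_num : (4:ℝ) ≠ 0)]
    congr 1
    ring
  have h7 : (4:ℝ) ^ (-((l+1) * ((k:ℤ) + 1)) + ((k:ℤ) + 1)) * (4:ℝ) ^ ((l+1) * ((k:ℤ) + 1))
      = 4 ^ (k+1) := by
    rw [← zpow_add₀ (by norm_num : (4:ℝ) ≠ 0)]
    have : (-((l+1) * ((k:ℤ) + 1)) + ((k:ℤ) + 1)) + (l+1) * ((k:ℤ) + 1) = ((k + 1 : ℕ) : ℤ) := by
      push_cast
      ring
    rw [this, zpow_natCast]
  calc _ ≤ (4:ℝ) ^ (l * ((n:ℤ) - (k:ℤ))) * (2 * R) := by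
        apply mul_le_mul_of_nonneg_left _ (by positivity)
        linarith
    _ = 2 * ((4:ℝ) ^ (-((l+1) * ((k:ℤ) + 1)) + ((k:ℤ) + 1))
          * ((4:ℝ) ^ (l * ((n:ℤ) + 1)) * R)) := by
        rw [h6]; ring
    _ ≤ 2 * ((4:ℝ) ^ (-((l+1) * ((k:ℤ) + 1)) + ((k:ℤ) + 1))
          * (4 * Gt * (4:ℝ) ^ ((l+1) * ((k:ℤ) + 1)))) := by
        apply mul_le_mul_of_nonneg_left _ (by norm_num)
        exact mul_le_mul_of_nonneg_left h3 (by positivity)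
    _ = 8 * Gt * ((4:ℝ) ^ (-((l+1) * ((k:ℤ) + 1)) + ((k:ℤ) + 1))
          * (4:ℝ) ^ ((l+1) * ((k:ℤ) + 1))) := by ring
    _ = 8 * 4 ^ (k+1) * Gt := by rw [h7]; ring

/-- step 4: the final summation -/
theorem final_sum (n k : ℕ) (hk : 1 ≤ k) {ι : Type} [Fintype ι] (T : ι → ℝ) (A Gt : ℝ)
    (hA : 0 ≤ A) (Λ J : Finset ℤ) (gam : ℤ → ℝ) (hgam : ∀ l, 0 ≤ gam l)
    (hGt : Gt = ∑ l ∈ Λ, gam l) (W : ℤ → ι → ℝ) (p : ℤ → ℤ → ℝ)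
    (h1 : ∀ i, T i ^ (n+1) ≤ 2 * ((4:ℝ) ^ (k+2)) ^ n * ∑ s ∈ J, (2:ℝ) ^ s * (W s i) ^ n)
    (h2 : ∀ s, ∑ i, (W s i) ^ n ≤ A * Gt ^ (k-1)
      * ∑ l ∈ Λ, gam l * ∑ l' ∈ Λ, (2:ℝ) ^ (-|l - l'|) * (4:ℝ) ^ (l' * ((n:ℤ) - (k:ℤ))) * p s l')
    (h3 : ∀ l ∈ Λ, (4:ℝ) ^ (l * ((n:ℤ) - (k:ℤ))) * ∑ s ∈ J, (2:ℝ) ^ s * p s l
      ≤ 8 * 4 ^ (k+1) * Gt)
    (h4 : ∀ l : ℤ, ∑ l' ∈ Λ, (2:ℝ) ^ (-|l - l'|) ≤ 3) :
    ∑ i, T i ^ (n+1) ≤ 48 * 4 ^ ((k+2)*n + (k+1)) * A * Gt ^ (k+1) := by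
  have hGt0 : 0 ≤ Gt := by
    rw [hGt]
    exact Finset.sum_nonneg (fun l _ => hgam l)
  have hin : ∀ l ∈ Λ, ∑ s ∈ J, (2:ℝ) ^ s * ∑ l' ∈ Λ, (2:ℝ) ^ (-|l - l'|)
      * (4:ℝ) ^ (l' * ((n:ℤ) - (k:ℤ))) * p s l' ≤ 3 * (8 * 4 ^ (k+1) * Gt) := by
    intro l _
    calc _ = ∑ l' ∈ Λ, (2:ℝ) ^ (-|l - l'|)
          * ((4:ℝ) ^ (l' * ((n:ℤ) - (k:ℤ))) * ∑ s ∈ J, (2:ℝ) ^ s * p s l') := by
          simp_rw [Finset.mul_sum]
          rw [Finset.sum_comm]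
          refine Finset.sum_congr rfl (fun l' _ => Finset.sum_congr rfl (fun s _ => ?_))
          ring
      _ ≤ ∑ l' ∈ Λ, (2:ℝ) ^ (-|l - l'|) * (8 * 4 ^ (k+1) * Gt) := by
          refine Finset.sum_le_sum (fun l' hl' => ?_)
          exact mul_le_mul_of_nonneg_left (h3 l' hl') (by positivity)
      _ = (∑ l' ∈ Λ, (2:ℝ) ^ (-|l - l'|)) * (8 * 4 ^ (k+1) * Gt) := by
          rw [Finset.sum_mul]
      _ ≤ 3 * (8 * 4 ^ (k+1) * Gt) :=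
          mul_le_mul_of_nonneg_right (h4 l) (by positivity)
  calc ∑ i, T i ^ (n+1)
      ≤ ∑ i, 2 * ((4:ℝ) ^ (k+2)) ^ n * ∑ s ∈ J, (2:ℝ) ^ s * (W s i) ^ n :=
        Finset.sum_le_sum (fun i _ => h1 i)
    _ = 2 * ((4:ℝ) ^ (k+2)) ^ n * ∑ s ∈ J, (2:ℝ) ^ s * ∑ i, (W s i) ^ n := by
        rw [← Finset.mul_sum, Finset.sum_comm]
        simp_rw [Finset.mul_sum]
    _ ≤ 2 * ((4:ℝ) ^ (k+2)) ^ n * ∑ s ∈ J, (2:ℝ) ^ s * (A * Gt ^ (k-1)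
          * ∑ l ∈ Λ, gam l * ∑ l' ∈ Λ, (2:ℝ) ^ (-|l - l'|)
            * (4:ℝ) ^ (l' * ((n:ℤ) - (k:ℤ))) * p s l') := by
        apply mul_le_mul_of_nonneg_left _ (by positivity)
        refine Finset.sum_le_sum (fun s _ => ?_)
        exact mul_le_mul_of_nonneg_left (h2 s) (by positivity)
    _ = 2 * ((4:ℝ) ^ (k+2)) ^ n * (A * Gt ^ (k-1)) * ∑ l ∈ Λ, gam l
          * ∑ s ∈ J, (2:ℝ) ^ s * ∑ l' ∈ Λ, (2:ℝ) ^ (-|l - l'|)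
            * (4:ℝ) ^ (l' * ((n:ℤ) - (k:ℤ))) * p s l' := by
        rw [mul_assoc (2 * ((4:ℝ) ^ (k+2)) ^ n)]
        congr 1
        rw [Finset.mul_sum]
        have e1 : ∀ s ∈ J, (2:ℝ) ^ s * (A * Gt ^ (k-1)
          * ∑ l ∈ Λ, gam l * ∑ l' ∈ Λ, (2:ℝ) ^ (-|l - l'|)
            * (4:ℝ) ^ (l' * ((n:ℤ) - (k:ℤ))) * p s l')
            = ∑ l ∈ Λ, A * Gt ^ (k-1) * (gam l * ((2:ℝ) ^ s * ∑ l' ∈ Λ, (2:ℝ) ^ (-|l - l'|)
            * (4:ℝ) ^ (l' * ((n:ℤ) - (k:ℤ))) * p s l')) := by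
          intro s _
          rw [Finset.mul_sum, Finset.mul_sum]
          refine Finset.sum_congr rfl (fun l _ => ?_)
          ring
        rw [Finset.sum_congr rfl e1, Finset.sum_comm]
        refine Finset.sum_congr rfl (fun l _ => ?_)
        rw [← Finset.mul_sum, ← Finset.mul_sum]
    _ ≤ 2 * ((4:ℝ) ^ (k+2)) ^ n * (A * Gt ^ (k-1)) * ∑ l ∈ Λ, gam l
          * (3 * (8 * 4 ^ (k+1) * Gt)) := by
        apply mul_le_mul_of_nonneg_left _ (by positivity)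
        refine Finset.sum_le_sum (fun l hl => ?_)
        exact mul_le_mul_of_nonneg_left (hin l hl) (hgam l)
    _ = 2 * ((4:ℝ) ^ (k+2)) ^ n * (A * Gt ^ (k-1)) * (Gt * (3 * (8 * 4 ^ (k+1) * Gt))) := by
        rw [← Finset.sum_mul, ← hGt]
    _ = 48 * 4 ^ ((k+2)*n + (k+1)) * A * Gt ^ (k+1) := by
        obtain ⟨j, rfl⟩ : ∃ j, k = j + 1 := ⟨k - 1, by omega⟩
        rw [Nat.add_sub_cancel, ← pow_mul, pow_add (4:ℝ) ((j + 1 + 2) * n) (j + 1 + 1)]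
        ring

theorem abs : S_GR → S_LEV → S_ZS → S_PRN → S_ABS := by
  intro hGR hLEV hZS hPRN n k hk hkn
  refine ⟨48 * 4 ^ ((k+2)*n + (k+1)), by positivity, ?_⟩
  intro ι X _ _ V A hA hyp f hf
  obtain ⟨Λ, S, hne, hval, hcov, hdis, hG⟩ := hLEV n k X f hf
  have hG0 : 0 ≤ ∑ x : X, (f x) ^ (((n:ℝ) + 1) / ((k:ℝ) + 1)) :=
    Finset.sum_nonneg (fun x _ => Real.rpow_nonneg (hf x) _)
  set G : ℝ := ∑ x : X, (f x) ^ (((n:ℝ) + 1) / ((k:ℝ) + 1)) with hGdef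
  rcases Λ.eq_empty_or_nonempty with hΛ | hΛ
  · have hf0 : ∀ x, f x = 0 := by
      intro x
      by_contra hx
      obtain ⟨l, hl, -⟩ := hcov x (lt_of_le_of_ne (hf x) (Ne.symm hx))
      rw [hΛ] at hl
      simp at hl
    have h0 : ∑ i : ι, (∑ x ∈ V i, f x) ^ (n+1) = 0 := by simp [hf0]
    rw [h0]
    positivity
  -- the levels
  let gam : ℤ → ℝ := fun l => (4:ℝ) ^ (l * ((n:ℤ) + 1)) * ((S l).card : ℝ)
  have hgam : ∀ l, 0 ≤ gam l := by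
    intro l
    show 0 ≤ (4:ℝ) ^ (l * ((n:ℤ) + 1)) * ((S l).card : ℝ)
    positivity
  have hgampos : ∀ l ∈ Λ, 0 < gam l := by
    intro l hl
    have h1 : (0:ℝ) < ((S l).card : ℝ) := by exact_mod_cast (hne l hl).card_pos
    show 0 < (4:ℝ) ^ (l * ((n:ℤ) + 1)) * ((S l).card : ℝ)
    positivity
  obtain ⟨Gt, hGt⟩ : ∃ Gt, Gt = ∑ l ∈ Λ, gam l := ⟨_, rfl⟩
  have hGtpos : 0 < Gt := by
    rw [hGt]
    exact Finset.sum_pos hgampos hΛ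
  have hGtG : Gt ≤ G := by
    rw [hGt]
    exact hG
  let T : ι → ℝ := fun i => ∑ x ∈ V i, f x
  have hT0 : ∀ i, 0 ≤ T i := fun i => Finset.sum_nonneg (fun x _ => hf x)
  let st : ι → ℤ := fun i => Int.log 2 (T i)
  have hst1 : ∀ i, 0 < T i → (2:ℝ) ^ (st i) ≤ T i := by
    intro i hi
    have := Int.zpow_log_le_self (b := 2) (by norm_num) hi
    exact_mod_cast this
  have hst2 : ∀ i, T i ≤ 2 * (2:ℝ) ^ (st i) := by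
    intro i
    have := Int.lt_zpow_succ_log_self (b := 2) (by norm_num) (T i)
    have h2 : T i < (2:ℝ) ^ (st i + 1) := by exact_mod_cast this
    rw [zpow_add_one₀ (by norm_num : (2:ℝ) ≠ 0)] at h2
    linarith
  let c : ℤ → ℝ := fun l => gam l / (2 * Gt)
  have hc0 : ∀ l ∈ Λ, 0 ≤ c l := fun l _ => div_nonneg (hgam l) (by positivity)
  have hcsum : ∑ l ∈ Λ, c l ≤ 1 / 2 := by
    show ∑ l ∈ Λ, gam l / (2 * Gt) ≤ 1 / 2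
    rw [← Finset.sum_div, ← hGt]
    apply le_of_eq
    field_simp
  let I : ℤ → Finset ι := fun l => Finset.univ.filter (fun i => 0 < T i ∧
    c l * T i ≤ (4:ℝ) ^ ((l+1) * ((k:ℤ) + 1)) * ((V i ∩ S l).card : ℝ))
  have hQex := fun l : ℤ => hGR ι X (I l) (fun i => V i ∩ S l) (S l)
    (fun i _ => Finset.inter_subset_right) st
  choose Q hQI hQ1 hQ2 using hQex
  have hmemQ : ∀ l, ∀ i ∈ Q l, 0 < T i ∧
      c l * T i ≤ (4:ℝ) ^ ((l+1) * ((k:ℤ) + 1)) * ((V i ∩ S l).card : ℝ) := by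
    intro l i hi
    have := hQI l hi
    simpa [I] using this
  let P : ℤ → ℤ → Finset ι := fun s l => (Q l).filter (fun j => s ≤ st j)
  let B : ℤ → ℤ → Finset X := fun s l => (S l).filter (fun x => ∃ j ∈ P s l, x ∈ V j)
  let W : ℤ → ι → ℝ := fun s i => ∑ x ∈ V i, ∑ l ∈ Λ,
    (if x ∈ B s l then (4:ℝ) ^ (l * ((k:ℤ) + 1)) else 0)
  have hW0 : ∀ s i, 0 ≤ W s i := by
    intro s i
    refine Finset.sum_nonneg (fun x _ => Finset.sum_nonneg (fun l _ => ?_))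
    split_ifs
    · positivity
    · exact le_rfl
  let J : Finset ℤ := Finset.univ.image st
  -- step 1
  have h1 : ∀ i, T i ^ (n+1) ≤ 2 * ((4:ℝ) ^ (k+2)) ^ n * ∑ s ∈ J, (2:ℝ) ^ s * (W s i) ^ n := by
    intro i
    have hsum0 : ∀ s ∈ J, 0 ≤ (2:ℝ) ^ s * (W s i) ^ n := by
      intro s _
      exact mul_nonneg (by positivity) (pow_nonneg (hW0 s i) n)
    rcases (hT0 i).eq_or_lt with hTi | hTi
    · rw [← hTi, zero_pow (Nat.succ_ne_zero n)]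
      exact mul_nonneg (by positivity) (Finset.sum_nonneg hsum0)
    · have hpr : T i ≤ (4:ℝ) ^ (k+2) * W (st i) i := by
        refine hPRN k ι X V f hf Λ S hval hcov hdis c hc0 hcsum (B (st i)) i ?_
        intro l hl hle
        have hiI : i ∈ I l := by
          simp only [I, Finset.mem_filter, Finset.mem_univ, true_and]
          exact ⟨hTi, hle⟩
        refine (hQ1 l i hiI).trans (Nat.mul_le_mul_left 2 (Finset.card_le_card ?_))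
        intro x hx
        rw [Finset.mem_filter] at hx
        obtain ⟨hxV, j, hjQ, hsj, hxj⟩ := hx
        rw [Finset.mem_inter] at hxV hxj ⊢
        refine ⟨hxV.1, ?_⟩
        simp only [B, P, Finset.mem_filter]
        exact ⟨hxV.2, j, ⟨hjQ, hsj⟩, hxj.1⟩
      have hle1 : (2:ℝ) ^ (st i) * (W (st i) i) ^ n ≤ ∑ s ∈ J, (2:ℝ) ^ s * (W s i) ^ n :=
        Finset.single_le_sum (f := fun s => (2:ℝ) ^ s * (W s i) ^ n) hsum0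
          (Finset.mem_image_of_mem st (Finset.mem_univ i))
      have hTn : T i ^ n ≤ ((4:ℝ) ^ (k+2) * W (st i) i) ^ n :=
        pow_le_pow_left₀ (hT0 i) hpr n
      calc T i ^ (n+1) = T i ^ n * T i := pow_succ _ _
        _ ≤ ((4:ℝ) ^ (k+2) * W (st i) i) ^ n * (2 * (2:ℝ) ^ (st i)) := by
            apply mul_le_mul hTn (hst2 i) (hT0 i)
            exact pow_nonneg (mul_nonneg (by positivity) (hW0 _ _)) n
        _ = 2 * ((4:ℝ) ^ (k+2)) ^ n * ((2:ℝ) ^ (st i) * (W (st i) i) ^ n) := by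
            rw [mul_pow]; ring
        _ ≤ _ := mul_le_mul_of_nonneg_left hle1 (by positivity)
  -- step 2
  have h2 : ∀ s, ∑ i, (W s i) ^ n ≤ A * Gt ^ (k-1)
      * ∑ l ∈ Λ, gam l * ∑ l' ∈ Λ, (2:ℝ) ^ (-|l - l'|) * (4:ℝ) ^ (l' * ((n:ℤ) - (k:ℤ)))
        * ((P s l').card : ℝ) := by
    intro s
    rw [hGt]
    refine hyp Λ (P s) (B s) ?_ gam ?_
    · intro l _ x hx
      simp only [B, Finset.mem_filter] at hx
      exact hx.2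
    · intro l _
      show (4:ℝ) ^ (l * ((n:ℤ) + 1)) * ((B s l).card : ℝ)
        ≤ (4:ℝ) ^ (l * ((n:ℤ) + 1)) * ((S l).card : ℝ)
      apply mul_le_mul_of_nonneg_left _ (by positivity)
      exact_mod_cast Finset.card_le_card (Finset.filter_subset _ _)
  -- step 3
  have h3 : ∀ l ∈ Λ, (4:ℝ) ^ (l * ((n:ℤ) - (k:ℤ))) * ∑ s ∈ J, (2:ℝ) ^ s * ((P s l).card : ℝ)
      ≤ 8 * 4 ^ (k+1) * Gt := by
    intro l hl
    exact level_mass n k V T st (S l) (hne l hl) l Gt hGtpos (Q l) J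
      (fun i hi => hst1 i (hmemQ l i hi).1) (fun i hi => (hmemQ l i hi).2) (hQ2 l)
      (hZS.2 ι (Q l) st J)
  have hfin := final_sum n k hk T A Gt hA Λ J gam hgam hGt W
    (fun s l => ((P s l).card : ℝ)) h1 h2 h3 (fun l => hZS.1 Λ l)
  refine hfin.trans ?_
  apply mul_le_mul_of_nonneg_left _ (by positivity)
  exact pow_le_pow_left₀ hGtpos.le hGtG (k+1)

end Pool.Agent.W168.KP
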